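import Mathlib

set_option autoImplicit false

open Cardinal Set

namespace Pool.Agent.Results.MP_446da5_lc.No

variable {K : Type}

/-- the current set after a list of cuts, the last cut first; true means the first piece -/
def Cur (σ : List (Set K × Set K) → Bool) : List (Set K × Set K) → Set K
  | [] => Set.univ
  | m :: l => if σ (m :: l) then m.1 else m.2

/-- the first n cuts, the last one first -/
def first {α : Type} (f : ℕ → α) : ℕ → List α
  | 0 => []
  | n + 1 => f n :: first f n

/-- σ is a winning strategy of Choose in the game of length omega on K -/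
def Wins (σ : List (Set K × Set K) → Bool) : Prop := ∀ f : ℕ → Set K × Set K,
  (∀ n, (f n).1 ∪ (f n).2 = Cur σ (first f n) ∧ Disjoint (f n).1 (f n).2) →
    (∀ n x, Cur σ (first f (n + 1)) ≠ {x}) ∧ (⋂ n, Cur σ (first f n)).Nonempty

lemma tr {I X : Type} (S : I → Set X) (h : ∀ i, #I ≤ #(S i)) :
    ∃ F : I → X, Function.Injective F ∧ ∀ i, F i ∈ S i := by
  obtain ⟨e⟩ := Cardinal.eq.1 (mk_ord_toType #I)
  have : ∀ (a : (#I).ord.ToType) (g : Iio a → X), ∃ x ∈ S (e a), x ∉ range g := fun a g =>
    not_subset.1 fun k => ((mk_le_mk_of_subset k).trans mk_range_le).not_gt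
      (lt_of_lt_of_le (by simpa using mk_Iio_lt a) (h _))
  choose y y1 y2 using this
  let f : (#I).ord.ToType → X := wellFounded_lt.fix fun a g => y a fun b => g b b.2
  have hf : ∀ a, f a = y a fun b => f b := fun a => wellFounded_lt.fix_eq _ a
  refine ⟨f ∘ e.symm, (Function.Injective.of_lt_imp_ne fun a b c d =>
    y2 b (fun b => f b) ⟨⟨a, c⟩, d.trans (hf b)⟩).comp e.symm.injective, fun i => ?_⟩
  simpa [hf (e.symm i)] using y1 (e.symm i) _

/-- the cuts induced by a sequence of sets -/
def P (σ : List (Set K × Set K) → Bool) (f : ℕ → Set K) : ℕ → List (Set K × Set K)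
  | 0 => []
  | n + 1 => (Cur σ (P σ f n) ∩ f n, Cur σ (P σ f n) \ f n) :: P σ f n

variable {σ : List (Set K × Set K) → Bool}

lemma pc {f g : ℕ → Set K} {n : ℕ} (h : ∀ i < n, f i = g i) : P σ f n = P σ g n := by
  induction n with
  | zero => rfl
  | succ n k => simp [P, k fun i a => h i (by omega), h n (by omega)]

lemma ps (f : ℕ → Set K) (n : ℕ) : Cur σ (P σ f (n + 1)) = Cur σ (P σ f n) ∩ f n ∨
    Cur σ (P σ f (n + 1)) = Cur σ (P σ f n) \ f n := by
  simp only [P, Cur]; split_ifs <;> simp

lemma pa (f : ℕ → Set K) : Antitone fun n => Cur σ (P σ f n) := antitone_nat_of_succ_le fun n =>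
  (ps f n).elim (·.le.trans inter_subset_left) (·.le.trans sdiff_subset)

lemma pw (h : Wins σ) (f : ℕ → Set K) : (∀ n x, Cur σ (P σ f (n + 1)) ≠ {x}) ∧
    ∃ x, ∀ n, x ∈ Cur σ (P σ f n) := by
  have e : ∀ n, first (fun n => (Cur σ (P σ f n) ∩ f n, Cur σ (P σ f n) \ f n)) n = P σ f n :=
    fun n => by induction n with
      | zero => rfl
      | succ n k => simp [first, P, k]
  simpa [e] using h (fun n => (Cur σ (P σ f n) ∩ f n, Cur σ (P σ f n) \ f n)) fun n =>
    ⟨(inter_union_sdiff _ _).trans (by rw [e]), disjoint_sdiff_right.mono_left inter_subset_right⟩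

lemma dec (h : Wins σ) (e : K → ℕ → Bool) (f : ℕ → Set K) (n : ℕ) : ∃ (g : ℕ → Set K) (x : K),
    (∀ i < n, g i = f i) ∧ (∀ m, x ∈ Cur σ (P σ g m)) ∧
      ∀ j m, n + j < m → ∀ y ∈ Cur σ (P σ g m), e y j = e x j := by
  obtain ⟨x, a⟩ := (pw h fun i => if i < n then f i else {y | e y (i - n) = true}).2
  refine ⟨_, x, fun i b => if_pos b, a, fun j m b y c => ?_⟩
  have c := pa _ b c
  have a := a (n + j + 1)
  rcases ps (σ := σ) (fun i => if i < n then f i else {y | e y (i - n) = true}) (n + j) with d | d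
  all_goals
    have c := (d.le c).2
    have a := (d.le a).2
    simp_all

lemma spl (h : Wins σ) {e : K → ℕ → Bool} (i : Function.Injective e) (p : (ℕ → Set K) × ℕ)
    (k : ℕ) : ∃ (q : Bool → (ℕ → Set K) × ℕ) (t : Bool → ℕ → Bool), (∀ b, (∀ i < p.2,
      (q b).1 i = p.1 i) ∧ p.2 < (q b).2 ∧ ∀ y ∈ Cur σ (P σ (q b).1 (q b).2), ∀ j ≤ k,
        e y j = t b j) ∧ ∀ y ∈ Cur σ (P σ (q true).1 (q true).2),
          y ∉ Cur σ (P σ (q false).1 (q false).2) := by
  obtain ⟨f, n⟩ := p
  obtain ⟨g, x, g1, g2, g3⟩ := dec h e f n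
  obtain ⟨u, y, u1, u2, u3⟩ := dec h e (Function.update f n {x}) (n + 1)
  have u4 : ∀ i < n, u i = f i := fun i a => (u1 i (by omega)).trans (by simp [a.ne])
  obtain ⟨j, hj⟩ : ∃ j, e x j ≠ e y j := Function.ne_iff.1 (i.ne fun d => by
    subst d
    have a := u2 (n + 1)
    rcases ps (σ := σ) u n with d | d <;> rw [u1 n (by omega), Function.update_self] at d
    · exact (pw h u).1 n x (d.trans (inter_eq_right.2 (singleton_subset_iff.2 (u2 n))))
    · exact (d.le a).2 rfl)
  refine ⟨fun b => (cond b g u, n + j + k + 2), fun b => e (cond b x y), ?_, fun z a b =>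
    hj ((g3 j _ (by simp; omega) z a).symm.trans (u3 j _ (by simp; omega) z b))⟩
  rintro (_ | _)
  · exact ⟨u4, by simp; omega, fun z a m b => u3 m _ (by simp; omega) z a⟩
  · exact ⟨g1, by simp; omega, fun z a m b => g3 m _ (by simp; omega) z a⟩

theorem result (K : Type) (hK : #K ≤ 𝔠) (σ : List (Set K × Set K) → Bool) : ¬ Wins σ := by
  classical
  intro h
  let S : (List Bool → ℕ → Bool) → Set (ℕ → Bool) := fun t =>
    {y | ∃ β : ℕ → Bool, ∀ n, ∀ j ≤ n, y j = t (first β (n + 1)) j}
  obtain ⟨F, f1, f2⟩ := tr (I := (List Bool → ℕ → Bool) ⊕ K)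
    (Sum.elim (fun t => if 𝔠 ≤ #(S t) then S t else Set.univ) fun _ => Set.univ) (by
      have : #((List Bool → ℕ → Bool) ⊕ K) ≤ 𝔠 := by
        simpa using add_le_of_le aleph0_le_continuum le_rfl hK
      rintro (t | x) <;> refine this.trans ?_
      · by_cases a : 𝔠 ≤ #(S t) <;> simp [a]
      · simp)
  choose q t q1 q2 using spl h (f1.comp Sum.inr_injective)
  let p : List Bool → (ℕ → Set K) × ℕ := List.rec (fun _ => ∅, 0) fun b s r => q r s.length b
  let T : List Bool → ℕ → Bool := fun s => List.casesOn s (fun _ => true)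
    fun b s => t (p s) s.length b
  have l : ∀ (β : ℕ → Bool) n, (first β n).length = n := fun β n => by
    induction n <;> simp_all [first]
  have k : ∀ β : ℕ → Bool, ∃ x, ∀ n, x ∈ Cur σ (P σ (p (first β n)).1 (p (first β n)).2) := by
    intro β
    have a : StrictMono fun n => (p (first β n)).2 := strictMono_nat_of_lt_succ fun n =>
      (q1 _ _ _).2.1
    have b : ∀ n m, n ≤ m → ∀ i < (p (first β n)).2, (p (first β m)).1 i = (p (first β n)).1 i := by
      intro n m c
      induction c with
      | refl => exact fun _ _ => rfl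
      | step c d => exact fun i j => ((q1 _ _ _).1 i (j.trans_le (a.monotone c))).trans (d i j)
    obtain ⟨x, c⟩ := (pw h fun i => (p (first β (i + 1))).1 i).2
    refine ⟨x, fun n => pc (fun i j => ?_) ▸ c (p (first β n)).2⟩
    rcases le_total n (i + 1) with d | d
    exacts [b _ _ d i j, (b _ _ d i a.le_apply).symm]
  choose x hx using k
  have x1 : ∀ β n, ∀ j ≤ n, F (.inr (x β)) j = T (first β (n + 1)) j := fun β n j a =>
    (q1 _ _ _).2.2 _ (hx β (n + 1)) j (by rwa [l])
  have x2 : Function.Injective x := fun β γ a => by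
    have : ∀ n, first β n = first γ n := fun n => by
      induction n with
      | zero => rfl
      | succ n k =>
        have b := hx β (n + 1)
        have c := a ▸ hx γ (n + 1)
        simp only [first, k] at b c ⊢
        cases d : β n <;> cases e : γ n <;> rw [d] at b <;> rw [e] at c
        exacts [(q2 _ _ _ c b).elim, (q2 _ _ _ b c).elim]
    exact funext fun n => (List.cons.inj (this (n + 1))).1
  have : 𝔠 ≤ #(S T) := le_trans (by simp) (mk_le_of_injective (f := fun β =>
    (⟨_, β, x1 β⟩ : S T)) fun β γ a => x2 (Sum.inr_injective (f1 (congrArg Subtype.val a))))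
  obtain ⟨β, a⟩ : F (.inl T) ∈ S T := by simpa [this] using f2 (.inl T)
  exact Sum.inl_ne_inr (f1 (funext fun j => (a j j le_rfl).trans (x1 β j j le_rfl).symm))

end Pool.Agent.Results.MP_446da5_lc.No
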